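import Pool.Agent.H174.GP.StD

/-! # Converse duality of the dominance order at one place -/

set_option autoImplicit false

namespace Pool.Agent.H549.GP174

open Pool.Agent.H174.GP

theorem take_le (x : ℕ) : ∀ (l : List ℕ) (k : ℕ),
    (l.take k).sum + (l.map (fun a => min a x)).sum ≤ k * x + l.sum := by
  intro l
  induction l with
  | nil => intro k; simp
  | cons a l ih =>
    intro k
    rcases k with _ | k
    · have h1 := ih 0
      simp only [List.take_zero, List.sum_nil, List.map_cons, List.sum_cons, zero_mul,
        zero_add] at h1 ⊢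
      have h2 : min a x ≤ a := min_le_left _ _
      omega
    · have h1 := ih k
      simp only [List.take_succ_cons, List.sum_cons, List.map_cons]
      have h2 : min a x ≤ x := min_le_right _ _
      rw [add_mul, one_mul]
      omega

theorem take_eq : ∀ (m : List ℕ), m.Pairwise (· ≥ ·) → ∀ k : ℕ,
    (m.take k).sum + (m.map (fun a => min a (m.getD k 0))).sum = k * m.getD k 0 + m.sum := by
  intro m
  induction m with
  | nil => intro _ k; simp
  | cons a m ih =>
    intro hm k
    rw [List.pairwise_cons] at hm
    rcases k with _ | k
    · simp only [List.take_zero, List.sum_nil, List.map_cons, List.sum_cons, zero_mul,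
        zero_add, List.getD_cons_zero, min_self]
      have h1 : m.map (fun b => min b a) = m := by
        conv_rhs => rw [← List.map_id m]
        apply List.map_congr_left
        intro b hb
        exact min_eq_left (hm.1 b hb)
      rw [h1]
    · have h1 := ih hm.2 k
      have h2 : m.getD k 0 ≤ a := by
        by_cases hk : k < m.length
        · rw [List.getD_eq_getElem _ _ hk]
          exact hm.1 _ (List.getElem_mem hk)
        · rw [List.getD_eq_default _ _ (by omega)]
          exact Nat.zero_le _
      simp only [List.take_succ_cons, List.sum_cons, List.map_cons, List.getD_cons_succ]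
      rw [min_eq_right h2, add_mul, one_mul]
      omega

theorem gp_dual2 : S_dual2 := by
  intro s t k hst h
  obtain ⟨l, hl⟩ : ∃ l, l = s.sort (· ≥ ·) := ⟨_, rfl⟩
  obtain ⟨m, hm⟩ : ∃ m, m = t.sort (· ≥ ·) := ⟨_, rfl⟩
  have hsl : (l : Multiset ℕ) = s := by rw [hl, Multiset.sort_eq]
  have htm : (m : Multiset ℕ) = t := by rw [hm, Multiset.sort_eq]
  have hmp : m.Pairwise (· ≥ ·) := by rw [hm]; exact Multiset.pairwise_sort _ _
  rw [← hl, ← hm]
  rw [← hm] at h
  have h1 := take_le (m.getD k 0) l k
  have h2 := take_eq m hmp k
  rw [← hsl, ← htm, Multiset.sum_coe, Multiset.sum_coe] at hst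
  rw [← hsl, ← htm, Multiset.map_coe, Multiset.map_coe, Multiset.sum_coe, Multiset.sum_coe] at h
  omega

end Pool.Agent.H549.GP174
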