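import Pool.Agent.H174.GP.StA

/-!
# Project GP, plow: lower bound for the number of partitions
-/

set_option autoImplicit false

namespace Pool.Agent.H549.GP174

open Finset

/-- the sum of a subset of `{1, ..., r}` is at most `r²` -/
theorem sum_le {r : ℕ} {A : Finset ℕ} (hA : A ⊆ Finset.Icc 1 r) : ∑ x ∈ A, x ≤ r * r := by
  calc ∑ x ∈ A, x ≤ ∑ x ∈ Finset.Icc 1 r, x :=
        Finset.sum_le_sum_of_subset_of_nonneg hA (fun _ _ _ => Nat.zero_le _)
    _ ≤ ∑ _x ∈ Finset.Icc 1 r, r :=
        Finset.sum_le_sum (fun x hx => (Finset.mem_Icc.1 hx).2)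
    _ = r * r := by
        rw [Finset.sum_const, Nat.card_Icc, smul_eq_mul, Nat.add_sub_cancel]

/-- the partition attached to a subset -/
def pt (n r : ℕ) (hr : r * r ≤ n) (hn : 1 ≤ n) (A : Finset ℕ) (hA : A ⊆ Finset.Icc 1 r) :
    Nat.Partition (2 * n) where
  parts := A.val + {2 * n - ∑ x ∈ A, x}
  parts_pos := by
    intro i hi
    rw [Multiset.mem_add, Multiset.mem_singleton] at hi
    have h1 := sum_le hA
    rcases hi with hi | hi
    · exact (Finset.mem_Icc.1 (hA hi)).1
    · omega
  parts_sum := by
    rw [Multiset.sum_add, Multiset.sum_singleton, Finset.sum_val]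
    have h1 := sum_le hA
    have h2 : A.sum id = ∑ x ∈ A, x := rfl
    rw [h2]
    omega

theorem filt {n r : ℕ} (hr : r * r ≤ n) (hrn : r < n) {A : Finset ℕ}
    (hA : A ⊆ Finset.Icc 1 r) :
    Multiset.filter (fun x => x ≤ r) (A.val + {2 * n - ∑ x ∈ A, x}) = A.val := by
  have h1 := sum_le hA
  rw [Multiset.filter_add]
  have h2 : Multiset.filter (fun x => x ≤ r) A.val = A.val :=
    Multiset.filter_eq_self.2 (fun x hx => (Finset.mem_Icc.1 (hA hx)).2)
  have h3 : Multiset.filter (fun x => x ≤ r) ({2 * n - ∑ x ∈ A, x} : Multiset ℕ) = 0 := by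
    apply Multiset.filter_eq_nil.2
    intro x hx
    rw [Multiset.mem_singleton] at hx
    omega
  rw [h2, h3, add_zero]

/-- there are at least two partitions of `2` -/
theorem two_le : 2 ≤ Nat.card (Nat.Partition (2 * 1)) := by
  let f : Bool → Nat.Partition (2 * 1) := fun b =>
    if b then ⟨{2}, by
      intro i hi
      rw [Multiset.mem_singleton] at hi
      omega, by simp⟩
    else ⟨{1, 1}, by
      intro i hi
      rw [Multiset.insert_eq_cons, Multiset.mem_cons, Multiset.mem_singleton] at hi
      omega, by simp⟩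
  have hf : Function.Injective f := by
    intro b c hbc
    have h1 : Multiset.card (f b).parts = Multiset.card (f c).parts := by rw [hbc]
    have ht : Multiset.card (f true).parts = 1 := rfl
    have hff : Multiset.card (f false).parts = 2 := rfl
    cases b <;> cases c
    · rfl
    · rw [ht, hff] at h1
      omega
    · rw [ht, hff] at h1
      omega
    · rfl
  have h2 := Nat.card_le_card_of_injective f hf
  rw [Nat.card_eq_fintype_card, Fintype.card_bool] at h2
  exact h2

theorem gp_plow : Pool.Agent.H174.GP.S_plow := by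
  intro n hn
  rcases Nat.lt_or_ge n 2 with h | h
  · have h1 : n = 1 := by omega
    subst h1
    have h2 : Nat.sqrt 1 = 1 := Nat.sqrt_one
    rw [h2, pow_one]
    exact two_le
  · have hr : Nat.sqrt n * Nat.sqrt n ≤ n := Nat.sqrt_le n
    have hrn : Nat.sqrt n < n := Nat.sqrt_lt_self (by omega)
    set r := Nat.sqrt n with hrdef
    let f : {A : Finset ℕ // A ∈ (Finset.Icc 1 r).powerset} → Nat.Partition (2 * n) :=
      fun A => pt n r hr hn A.1 (Finset.mem_powerset.1 A.2)
    have hf : Function.Injective f := by
      intro A B hAB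
      have h1 : (f A).parts = (f B).parts := by rw [hAB]
      have h2 := congrArg (Multiset.filter (fun x => x ≤ r)) h1
      have h3 : Multiset.filter (fun x => x ≤ r) (f A).parts = A.1.val :=
        filt hr hrn (Finset.mem_powerset.1 A.2)
      have h4 : Multiset.filter (fun x => x ≤ r) (f B).parts = B.1.val :=
        filt hr hrn (Finset.mem_powerset.1 B.2)
      rw [h3, h4] at h2
      exact Subtype.ext (Finset.val_injective h2)
    have h5 := Nat.card_le_card_of_injective f hf
    have h6 : Nat.card {A : Finset ℕ // A ∈ (Finset.Icc 1 r).powerset} = 2 ^ r := by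
      rw [Nat.card_eq_fintype_card, Fintype.card_coe, Finset.card_powerset, Nat.card_Icc,
        Nat.add_sub_cancel]
    rw [h6] at h5
    exact h5

end Pool.Agent.H549.GP174
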